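import Pool.Agent.R302.SemiC
import Pool.Agent.R302.ComplIdealDef

namespace Pool.Agent.Results.MP_b29958_an.ComplementedIdeal

open Pool.Agent.R302.SemiAmenDef Pool.Agent.R302.ComplIdealDef

universe u w

/-- A complemented ideal of an approximately semi-amenable Banach algebra is approximately
semi-amenable. -/
theorem _root_.Pool.Agent.Results.MP_b29958_an.ComplementedIdeal.result
    {A : Type u} [NonUnitalNormedRing A] [NormedSpace ℂ A] [CompleteSpace A]
    [IsScalarTower ℂ A A] [SMulCommClass ℂ A A]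
    (hA : IsApproxSemiAmenable.{u, u} A)
    (J : NonUnitalSubalgebra ℂ A) (hJ : IsComplementedIdeal J) :
    IsApproxSemiAmenable.{u, w} J := by
  obtain ⟨P, hP1, hP2⟩ := hJ.complemented
  let ι : J →L[ℂ] A := J.toSubmodule.subtypeL
  let Q : A →L[ℂ] J := P.codRestrict J.toSubmodule hP1
  have hι : ∀ x : J, ι x = (x : A) := fun _ => rfl
  have hQ : ∀ a : A, ((Q a : J) : A) = P a := fun _ => rfl
  have hC : Pool.Agent.R302.SemiB.Compl ι Q := by
    refine ⟨fun x y => rfl, fun x => ?_, fun a x => ?_, fun x a => ?_⟩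
    · apply Subtype.ext
      rw [hQ]
      exact hP2 _ x.2
    · rw [hι, hQ]
      exact hP2 _ (hJ.mul_mem_left a _ x.2)
    · rw [hι, hQ]
      exact hP2 _ (hJ.mul_mem_right a _ x.2)
  exact Pool.Agent.R302.SemiC.new_of_old (Pool.Agent.R302.SemiB.main hC
    (Pool.Agent.R302.SemiC.old_of_new hA))

end Pool.Agent.Results.MP_b29958_an.ComplementedIdeal
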